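import Pool.Agent.Lib.lead.CXGraphRed

namespace Pool.Agent.Results.MP_c99d13_lc.Hard
open Pool.Agent.Lib.CX Relation

/-- the `i`-th arc of the antidirected walk `v 0, v 1, …` that starts with a forward arc -/
def arcAt {V : Type} (v : ℕ → V) (i : ℕ) : V × V := if Even i then (v i, v (i + 1)) else (v (i + 1), v i)

/-- at least three vertices and a forward antidirected trail between any two distinct vertices -/
def Antistrong {V : Type} (A : V → V → Prop) : Prop :=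
  3 ≤ Nat.card V ∧ ∀ x y, x ≠ y → ∃ (k : ℕ) (v : ℕ → V), v 0 = x ∧ v (2 * k + 1) = y ∧
    (∀ i ≤ 2 * k, A (arcAt v i).1 (arcAt v i).2) ∧ Set.InjOn (arcAt v) (Set.Iic (2 * k))

def Strong {V : Type} (A : V → V → Prop) : Prop := ∀ x y, ReflTransGen A x y

/-- arc-disjoint spanning subdigraphs, one antistrong and one strong -/
def Good {V : Type} (D : V → V → Prop) : Prop :=
  ∃ A B : V → V → Prop, (∀ u v, A u v → D u v) ∧ (∀ u v, B u v → D u v) ∧ (∀ u v, A u v → ¬ B u v) ∧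
    Antistrong A ∧ Strong B

def Bp {V : Type} (A : V → V → Prop) (a b : V × Bool) : Prop :=
  (a.2 = false ∧ b.2 = true ∧ A a.1 b.1) ∨ (b.2 = false ∧ a.2 = true ∧ A b.1 a.1)

theorem anti_of {V : Type} {A : V → V → Prop} (h3 : 3 ≤ Nat.card V)
    (h : ∀ x y, ReflTransGen (Bp A) (x, false) (y, true)) : Antistrong A := by
  classical
  refine ⟨h3, fun x y _ => ?_⟩
  let G : SimpleGraph (V × Bool) := ⟨Bp A, ⟨fun _ _ => Or.symm⟩, ⟨fun a h => by rcases h with h | h <;> cases h.1.symm.trans h.2.1⟩⟩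
  obtain ⟨p, hp⟩ := ((G.reachable_iff_reflTransGen _ _).2 (h x y)).exists_isPath
  have h0 : ∀ i < p.length, Bp A (p.getVert i) (p.getVert (i + 1)) := fun i hi => p.adj_getVert_succ hi
  have h1 : ∀ i ≤ p.length, ((p.getVert i).2 = false ↔ Even i) := fun i hi => by
    induction i with
    | zero => simp
    | succ i ih => rw [Nat.even_add_one, ← ih (by omega)]; rcases h0 i hi with h | h <;> simp [h]
  obtain ⟨k, hk⟩ : Odd p.length := by rw [← Nat.not_even_iff_odd, ← h1 _ le_rfl]; simp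
  have h2 : ∀ i ≤ p.length, ∀ j ≤ p.length, (p.getVert i).1 = (p.getVert j).1 → i % 2 = j % 2 → i = j :=
    fun i hi j hj a b => hp.getVert_injOn hi hj (Prod.ext a (Bool.eq_iff_iff.2 (by
      rw [← not_iff_not, Bool.not_eq_true, Bool.not_eq_true, h1 i hi, h1 j hj, Nat.even_iff, Nat.even_iff, b])))
  refine ⟨k, fun i => (p.getVert i).1, by simp, by simp [← hk], fun i hi => ?_, fun i hi j hj e => ?_⟩
  · have := h1 i (by omega)
    unfold arcAt
    rcases h0 i (by omega) with h | h <;> split_ifs <;> simp_all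
  · have hi : i ≤ 2 * k := hi
    have hj : j ≤ 2 * k := hj
    simp only [arcAt, Nat.even_iff] at e
    split_ifs at e <;> rw [Prod.mk.injEq] at e <;> have := h2 _ (by omega) _ (by omega) e.1 (by omega) <;>
      have := h2 _ (by omega) _ (by omega) e.2 (by omega) <;> omega

theorem good_iff {V W : Type} {D : V → V → Prop} {R : W → W → Prop} {P : Set W} (e : V ≃ P) (h3 : 3 ≤ Nat.card V)
    (h : ∀ u v, D u v ↔ R (e u) (e v)) (hP : ∀ x y, R x y → x ∈ P ∧ y ∈ P) :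
    (Good D → ∃ A B : W → W → Prop, (∀ u v, A u v → R u v) ∧ (∀ u v, B u v → R u v) ∧ (∀ u v, A u v → ¬ B u v) ∧
      (∀ u ∈ P, ∃ v, A u v) ∧ ∀ u ∈ P, ∀ v ∈ P, ReflTransGen B u v) ∧
    ∀ Q : W → W → Prop, (∀ u ∈ P, ∀ v ∈ P, ReflTransGen (fun x y => R x y ∧ Q x y) u v) →
      (∀ u ∈ P, ∀ v ∈ P, ReflTransGen (Bp fun x y => R x y ∧ ¬ Q x y) (u, false) (v, true)) → Good D := by
  classical
  have : Finite V := Nat.finite_of_card_ne_zero (by omega)
  have : Nontrivial V := Finite.one_lt_card_iff_nontrivial.1 (by omega)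
  constructor
  · rintro ⟨A, B, h1, h2, h4, h5, h6⟩
    refine ⟨Relation.Map A (e ·) (e ·), Relation.Map B (e ·) (e ·), ?_, ?_, ?_, fun u hu => ?_, fun u hu v hv => ?_⟩
    · rintro _ _ ⟨u, v, a, rfl, rfl⟩; exact (h u v).1 (h1 u v a)
    · rintro _ _ ⟨u, v, a, rfl, rfl⟩; exact (h u v).1 (h2 u v a)
    · rintro _ _ ⟨u, v, a, rfl, rfl⟩ ⟨u', v', b, c, d⟩
      rw [e.injective (Subtype.ext c), e.injective (Subtype.ext d)] at b
      exact h4 u v a b
    · obtain ⟨y, hy⟩ := exists_ne (e.symm ⟨u, hu⟩)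
      obtain ⟨k, v, a, -, b, -⟩ := h5.2 _ _ hy.symm
      exact ⟨_, _, _, b 0 (by omega), by simp [arcAt, a], rfl⟩
    · simpa [Function.onFun] using (h6 (e.symm ⟨u, hu⟩) (e.symm ⟨v, hv⟩)).lift (fun x => (e x).1)
        (p := Relation.Map B (fun x => (e x).1) fun x => (e x).1) fun a b c => ⟨a, b, c, rfl, rfl⟩
  · intro Q h1 h2
    let s : W → V := fun x => if a : x ∈ P then e.symm ⟨x, a⟩ else Classical.arbitrary V
    have s1 : ∀ x ∈ P, (e (s x)).1 = x := fun x a => by simp [s, a]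
    have s2 : ∀ u, s (e u) = u := fun u => by simp [s]
    refine ⟨fun u v => R (e u) (e v) ∧ ¬ Q (e u) (e v), fun u v => R (e u) (e v) ∧ Q (e u) (e v),
      fun u v a => (h u v).2 a.1, fun u v a => (h u v).2 a.1, fun u v a b => a.2 b.2, anti_of h3 fun x y => ?_, fun x y => ?_⟩
    · simpa [s2, Function.onFun] using (h2 _ (e x).2 _ (e y).2).lift (Prod.map s id)
        (p := Bp fun u v => R (e u) (e v) ∧ ¬ Q (e u) (e v)) fun a b c => c.imp
          (fun c => by simpa [s1 _ (hP _ _ c.2.2.1).1, s1 _ (hP _ _ c.2.2.1).2] using c)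
          (fun c => by simpa [s1 _ (hP _ _ c.2.2.1).1, s1 _ (hP _ _ c.2.2.1).2] using c)
    · simpa [s2, Function.onFun] using (h1 _ (e x).2 _ (e y).2).lift s (p := fun u v => R (e u) (e v) ∧ Q (e u) (e v))
        fun a b c => by simpa [s1 _ (hP _ _ c.1).1, s1 _ (hP _ _ c.1).2, Function.onFun] using c

abbrev W := ℕ × ℕ × ℕ
def vr (φ : List (T3 ℕ)) (j : ℕ) : List ℕ := (φ.getD j (0, 0, 0)).vars
def In (m : ℕ) (u : W) : Prop := (u.1 = 0 ∧ u.2.1 = 0 ∧ u.2.2 < 3) ∨ (u.1 = 1 ∧ u.2.1 < 6 * m + 2 ∧ u.2.2 < 3) ∨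
  (u.1 = 2 ∧ u.2.1 < 2 * m ∧ u.2.2 < 3) ∨ (u.1 = 3 ∧ u.2.1 < 6 * m + 2 ∧ u.2.2 ≤ m) ∨ (u.1 = 4 ∧ u.2.1 ≤ 3 * m ∧ u.2.2 = 0)
instance (m u) : Decidable (In m u) := by unfold In; infer_instance
def nx (m : ℕ) (u : W) : W := if u.2.2 < m then (3, u.2.1, u.2.2 + 1) else (1, u.2.1, 0)
def sc (φ : List (T3 ℕ)) (u : W) : W :=
  if u.2.2 < φ.length ∧ u.2.1 / 2 ∈ vr φ u.2.2 then (2, 2 * u.2.2 + u.2.1 % 2, 0) else (0, 0, 0)
def R (φ : List (T3 ℕ)) (u v : W) : Prop := In φ.length u ∧ In φ.length v ∧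
  ((u.1 ≤ 2 ∧ v.1 = u.1 ∧ v.2.1 = u.2.1 ∧ v.2.2 ≠ u.2.2) ∨ ((u.1 = 1 ∨ u.1 = 2) ∧ v.1 = 0) ∨
    (u.1 = 0 ∧ (v.1 = 4 ∨ v.1 = 3 ∧ v.2.2 = 0)) ∨ (u.1 = 1 ∧ v.1 = 3 ∧ v.2.1 = u.2.1) ∨
    (u.1 = 3 ∧ (v = nx φ.length u ∨ v = sc φ u)) ∨ (u.1 = 4 ∧ v.1 = 1 ∧ v.2.1 / 2 = u.2.1 ∧ v.2.2 = 0))
instance (φ u v) : Decidable (R φ u v) := by unfold R; infer_instance
def vs (m : ℕ) : List W := (List.range 5 ×ˢ List.range (6 * m + 2) ×ˢ List.range (m + 3)).filter (In m)
def red (φ : List (T3 ℕ)) : Gr := mkGr (vs φ.length) ((vs φ.length ×ˢ vs φ.length).filter fun e => R φ e.1 e.2)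

theorem mem_vs {m u} : u ∈ vs m ↔ In m u := by
  obtain ⟨a, b, c⟩ := u
  simp only [vs, List.mem_filter, List.mem_product, List.mem_range, decide_eq_true_eq, In]
  omega

theorem arc (φ : List (T3 ℕ)) (u v) : (red φ).arc u v ↔ R φ (mkGrEquiv _ _ u) (mkGrEquiv _ _ v) := by
  refine (mkGr_arc _ _ u v).trans ?_
  simp only [List.mem_filter, List.mem_product, decide_eq_true_eq, and_iff_right_iff_imp, mem_vs]
  exact fun h => ⟨h.1, h.2.1⟩

theorem valid (φ : List (T3 ℕ)) (v) : ¬ (red φ).arc v v := by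
  rw [arc]
  generalize (mkGrEquiv _ _ v).1 = u
  simp only [R, nx, sc, Prod.ext_iff]
  split_ifs <;> simp <;> omega

theorem sound (φ : List (T3 ℕ)) (A B : W → W → Prop) (h1 : ∀ u v, A u v → R φ u v) (h2 : ∀ u v, B u v → R φ u v)
    (h3 : ∀ u v, A u v → ¬ B u v) (h4 : ∀ u, In φ.length u → ∃ v, A u v)
    (h5 : ∀ v, In φ.length v → ReflTransGen B (0, 0, 0) v) : SatR nae φ := by
  have h6 : ∀ Z : W → Prop, ¬ Z (0, 0, 0) → ∀ t, In φ.length t → Z t → ∃ u v, ¬ Z u ∧ Z v ∧ B u v := fun Z a t b c => by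
    by_contra h
    push Not at h
    have := h5 t b
    clear b
    induction this with
    | refl => exact a c
    | tail _ d ih => exact h _ _ ih c d
  have h7 : ∀ x, ∃ l, x ≤ 3 * φ.length → l / 2 = x ∧ A (4, x, 0) (1, l, 0) := fun x => by
    by_cases hx : x ≤ 3 * φ.length
    · obtain ⟨⟨a, b, c⟩, h⟩ := h4 (4, x, 0) (by simp [In, hx])
      have := (h1 _ _ h).2.2
      simp at this
      obtain ⟨rfl, d, rfl⟩ := this
      exact ⟨b, fun _ => ⟨d, h⟩⟩
    · exact ⟨0, fun h => (hx h).elim⟩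
  choose l hl using h7
  have h8 : ∀ x ≤ 3 * φ.length, ∀ j ≤ φ.length, B (3, l x, j) (nx φ.length (3, l x, j)) := fun x hx j hj => by
    have := hl x hx
    obtain ⟨⟨a, b, c⟩, ⟨a', b', c'⟩, p1, p2, p3⟩ := h6 (fun v => v.2.1 = l x ∧ (v.1 = 1 ∨ v.1 = 3 ∧ j < v.2.2)) (by simp)
      (1, l x, 0) (by simp [In]; omega) (by simp)
    obtain ⟨p4, -, p5⟩ := h2 _ _ p3
    simp only [In] at p1 p2 p4 p5
    rcases p5 with h | h | h | h | ⟨rfl, h | h⟩ | ⟨rfl, rfl, h, rfl⟩ <;> try omega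
    · have : b = l x ∧ c = j := by simp only [nx, Prod.ext_iff] at h; split_ifs at h <;> simp at h <;> omega
      rwa [h, this.1, this.2] at p3
    · simp only [sc, Prod.ext_iff] at h; split_ifs at h <;> simp at h <;> omega
    · rw [← h, p2.1, this.1, show c = 0 by omega] at p3
      exact (h3 _ _ this.2 p3).elim
  have h9 : ∀ j < φ.length, ∀ b < 2, ∃ x ∈ vr φ j, l x % 2 ≠ b := fun j hj b hb => by
    obtain ⟨⟨a, d, c⟩, ⟨a', b', c'⟩, p1, p2, p3⟩ := h6 (fun v => v.1 = 2 ∧ v.2.1 = 2 * j + b) (by simp)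
      (2, 2 * j + b, 0) (by simp [In]; omega) (by simp)
    obtain ⟨p4, -, p5⟩ := h2 _ _ p3
    have p4' := p4
    simp only [In] at p1 p2 p4 p5
    rcases p5 with h | h | h | h | ⟨rfl, h | h⟩ | h <;> try omega
    · simp only [nx, Prod.ext_iff] at h; split_ifs at h <;> simp at h <;> omega
    · have p6 := h
      simp only [sc, Prod.ext_iff] at h
      split_ifs at h with p7
      · obtain rfl : c = j := by simp at h; omega
        refine ⟨_, p7.2, fun p8 => ?_⟩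
        have p9 := h8 (d / 2) (by omega) c hj.le
        rw [show l (d / 2) = d by have := (hl (d / 2) (by omega)).1; simp at h; omega] at p9
        obtain ⟨v, hv⟩ := h4 _ p4'
        have := (h1 _ _ hv).2.2
        simp at this
        rcases this with rfl | rfl
        · exact h3 _ _ hv p9
        · exact h3 _ _ hv (p6 ▸ p3)
      · simp at h; omega
  refine ⟨fun x => decide (l x % 2 = 0), fun C hC => ?_⟩
  obtain ⟨j, hj, rfl⟩ := List.getElem_of_mem hC
  obtain ⟨x, x1, x2⟩ := h9 j hj 0 (by omega)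
  obtain ⟨y, y1, y2⟩ := h9 j hj 1 (by omega)
  have y3 : l y % 2 = 0 := by omega
  simp only [vr, List.getD_eq_getElem _ _ hj, T3.vars, List.mem_cons, List.not_mem_nil, or_false] at x1 y1
  rcases x1 with rfl | rfl | rfl <;> rcases y1 with rfl | rfl | rfl <;> simp_all [nae]

def Q (φ : List (T3 ℕ)) (w : ℕ → Bool) (u v : W) : Prop :=
  (u.1 ≤ 2 ∧ v.1 = u.1 ∧ v.2.2 = (u.2.2 + 1) % 3) ∨ (u.2.2 = 0 ∧ (u.1 = 1 ∨ u.1 = 2) ∧ v.1 = 0 ∧ v.2.2 = 1) ∨
    (u.2.2 = 0 ∧ u.1 ≤ 1 ∧ 3 ≤ v.1) ∨ (u.1 = 4 ∧ v.2.1 % 2 = (w (v.2.1 / 2)).toNat) ∨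
    (u.1 = 3 ∧ v = if u.2.1 % 2 = (w (u.2.1 / 2)).toNat then sc φ u else nx φ.length u)

theorem in_nx {m a j} (h : In m (3, a, j)) : In m (nx m (3, a, j)) := by
  unfold nx; split_ifs <;> simp [In] at * <;> omega

theorem in_sc {φ a j} : In φ.length (sc φ (3, a, j)) ∧ (sc φ (3, a, j)).1 % 2 = 0 ∧ (sc φ (3, a, j)).1 ≤ 2 := by
  unfold sc; split_ifs <;> simp [In] at * <;> omega

theorem strong (φ : List (T3 ℕ)) (w : ℕ → Bool) (hw : ∀ j < φ.length, ∀ b < 2, ∃ x ∈ vr φ j, x ≤ 3 * φ.length ∧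
    (w x).toNat = b) (u : W) (hu : In φ.length u) : ReflTransGen (fun x y => R φ x y ∧ Q φ w x y) u (0, 0, 0) ∧
      ReflTransGen (fun x y => R φ x y ∧ Q φ w x y) (0, 0, 0) u := by
  have s0 : ∀ k ≤ 2, ∀ a i, In φ.length (k, a, i) → ReflTransGen (fun x y => R φ x y ∧ Q φ w x y) (k, a, i) (k, a, 0) ∧
      ReflTransGen (fun x y => R φ x y ∧ Q φ w x y) (k, a, 0) (k, a, i) := fun k hk a i h => by
    have e : ∀ i < 3, R φ (k, a, i) (k, a, (i + 1) % 3) ∧ Q φ w (k, a, i) (k, a, (i + 1) % 3) := fun i hi =>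
      ⟨⟨by simp [In] at *; omega, by simp [In] at *; omega, .inl (by simp; omega)⟩, .inl (by simpa)⟩
    have : i < 3 := by simp [In] at h; omega
    interval_cases i
    exacts [⟨.refl, .refl⟩, ⟨.head (e 1 (by simp)) (.single (e 2 (by simp))), .single (e 0 (by simp))⟩,
      ⟨.single (e 2 (by simp)), .head (e 0 (by simp)) (.single (e 1 (by simp)))⟩]
  have s1 : ∀ u, In φ.length u → u.1 ≤ 2 → ReflTransGen (fun x y => R φ x y ∧ Q φ w x y) u (0, 0, 0) := by
    rintro ⟨k, a, i⟩ h hk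
    refine (s0 k hk a i h).1.trans ?_
    by_cases e : k = 0
    · rw [e, show a = 0 by simp [In] at h; omega]
    · exact .head (b := (0, 0, 1)) ⟨⟨by simp [In] at *; omega, by simp [In], by simp at *; omega⟩,
        .inr (.inl (by simp at *; omega))⟩ (s0 0 (by simp) 0 1 (by simp [In])).1
  have s2 : ∀ a j, In φ.length (3, a, j) → R φ (3, a, j) (if a % 2 = (w (a / 2)).toNat then sc φ (3, a, j) else
      nx φ.length (3, a, j)) ∧ Q φ w (3, a, j) (if a % 2 = (w (a / 2)).toNat then sc φ (3, a, j) else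
      nx φ.length (3, a, j)) := fun a j h =>
    ⟨by split_ifs; exacts [⟨h, in_sc.1, by simp⟩, ⟨h, in_nx h, by simp⟩], by simp [Q]⟩
  have s3 : ∀ a d j, j + d = φ.length → a < 6 * φ.length + 2 →
      ReflTransGen (fun x y => R φ x y ∧ Q φ w x y) (3, a, j) (0, 0, 0) := fun a d => by
    induction d with
    | zero =>
      refine fun j h ha => .head (s2 a j (by simp [In]; omega)) ?_
      split_ifs
      · exact s1 _ in_sc.1 in_sc.2.2
      · rw [nx, if_neg (by simp; omega)]; exact s1 _ (by simpa [In]) (by simp)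
    | succ d ih =>
      refine fun j h ha => .head (s2 a j (by simp [In]; omega)) ?_
      split_ifs
      · exact s1 _ in_sc.1 in_sc.2.2
      · rw [nx, if_pos (by simp; omega)]; exact ih _ (by simp; omega) ha
  have s4 : ∀ x ≤ 3 * φ.length, R φ (0, 0, 0) (4, x, 0) ∧ Q φ w (0, 0, 0) (4, x, 0) := fun x hx => by simp [R, Q, In, hx]
  have s5 : ∀ a < 6 * φ.length + 2, a % 2 = (w (a / 2)).toNat → R φ (4, a / 2, 0) (1, a, 0) ∧ Q φ w (4, a / 2, 0) (1, a, 0) :=
    fun a ha h => by simp [R, Q, In, ha, h]; omega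
  have s6 : ∀ a < 6 * φ.length + 2, ∀ j ≤ φ.length, ReflTransGen (fun x y => R φ x y ∧ Q φ w x y) (0, 0, 0) (3, a, j) :=
    fun a ha j hj => by
      by_cases h : a % 2 = (w (a / 2)).toNat
      · exact .tail (.tail (.single (s4 _ (by omega))) (s5 a ha h)) (by simp [R, Q, In, ha, hj])
      · induction j with
        | zero => exact .single (by simp [R, Q, In, ha])
        | succ j ih =>
          have := s2 a j (by simp [In]; omega)
          rw [if_neg h, nx, if_pos (by simp; omega)] at this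
          exact (ih (by omega)).tail this
  obtain ⟨k, a, i⟩ := u
  have hu' := hu
  rcases hu with ⟨rfl, h⟩ | ⟨rfl, h⟩ | ⟨rfl, h⟩ | ⟨rfl, h⟩ | ⟨rfl, h, rfl⟩ <;> dsimp only at *
  · obtain ⟨rfl, -⟩ := h; exact s0 0 (by simp) 0 i hu'
  · refine ⟨s1 _ hu' (by simp), .trans ?_ (s0 1 (by simp) a i hu').2⟩
    by_cases e : a % 2 = (w (a / 2)).toNat
    · exact .tail (.single (s4 _ (by omega))) (s5 a h.1 e)
    · have := s2 a φ.length (by simp [In]; omega)
      rw [if_neg e, nx, if_neg (by simp)] at this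
      exact (s6 a h.1 _ le_rfl).tail this
  · refine ⟨s1 _ hu' (by simp), .trans ?_ (s0 2 (by simp) a i hu').2⟩
    obtain ⟨x, x1, x2, x3⟩ := hw (a / 2) (by omega) (a % 2) (by omega)
    have e : (2 * x + a % 2) / 2 = x := by omega
    have := s2 (2 * x + a % 2) (a / 2) (by simp [In]; omega)
    rw [if_pos (by rw [e]; omega), sc, if_pos ⟨by simp; omega, by simpa [e]⟩] at this
    simp only [show 2 * (a / 2) + (2 * x + a % 2) % 2 = a by omega] at this
    exact (s6 _ (by omega) _ (by omega)).tail this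
  · exact ⟨s3 a (φ.length - i) i (by omega) h.1, s6 a h.1 i h.2⟩
  · have := (w a).toNat_le
    have e : (2 * a + (w a).toNat) / 2 = a := by omega
    have := s5 (2 * a + (w a).toNat) (by omega) (by rw [e]; omega)
    rw [e] at this
    exact ⟨.head this (s1 _ this.1.2.1 (by simp)), .single (s4 a h)⟩

theorem conn (φ : List (T3 ℕ)) (w : ℕ → Bool) (b : Bool) (u : W) (hu : In φ.length u) :
    ReflTransGen (Bp fun x y => R φ x y ∧ ¬ Q φ w x y) (u, b) ((0, 0, 0), true) := by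
  have c1 : ∀ k a i, In φ.length (k, a, i) → k = 1 ∨ k = 2 →
      ReflTransGen (Bp fun x y => R φ x y ∧ ¬ Q φ w x y) ((k, a, i), false) ((0, 0, 0), true) := fun k a i h hk =>
    .single (.inl ⟨rfl, rfl, ⟨h, by simp [In], by simp [hk]⟩, by simp [Q]; omega⟩)
  have c2 : ∀ i < 3, ReflTransGen (Bp fun x y => R φ x y ∧ ¬ Q φ w x y) ((0, 0, i), true) ((0, 0, 0), true) :=
    fun i hi => .head (b := ((1, 0, 1), false)) (.inr ⟨rfl, rfl, by simp [R, Q, In, hi]⟩) (c1 _ _ _ (by simp [In]) (by simp))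
  have c3 : ReflTransGen (Bp fun x y => R φ x y ∧ ¬ Q φ w x y) ((0, 0, 1), false) ((0, 0, 0), true) :=
    .single (.inl ⟨rfl, rfl, by simp [R, Q, In]⟩)
  have c4 : ∀ u, In φ.length u → ReflTransGen (Bp fun x y => R φ x y ∧ ¬ Q φ w x y) (u, true) ((0, 0, 0), true) := by
    rintro ⟨k, a, i⟩ hu
    rcases hu with ⟨rfl, rfl, h⟩ | ⟨rfl, h⟩ | ⟨rfl, h⟩ | ⟨rfl, h⟩ | ⟨rfl, h, rfl⟩ <;> dsimp only at *
    · exact c2 i h
    · exact .head (b := ((1, a, (i + 1) % 3), false)) (.inr ⟨rfl, rfl, by simp [R, Q, In, h]; omega⟩)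
        (c1 _ _ _ (by simp [In, h]; omega) (by simp))
    · exact .head (b := ((2, a, (i + 1) % 3), false)) (.inr ⟨rfl, rfl, by simp [R, Q, In, h]; omega⟩)
        (c1 _ _ _ (by simp [In, h]; omega) (by simp))
    · exact .head (b := ((1, a, 1), false)) (.inr ⟨rfl, rfl, by simp [R, Q, In, h]⟩) (c1 _ _ _ (by simp [In, h]) (by simp))
    · exact .head (.inr ⟨rfl, rfl, by simp [R, Q, In, h]⟩) c3
  cases b
  swap
  · exact c4 u hu
  suffices ∃ v, R φ u v ∧ ¬ Q φ w u v from this.elim fun v h => .head (.inl ⟨rfl, rfl, h⟩) (c4 v h.1.2.1)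
  obtain ⟨k, a, i⟩ := u
  have hu' := hu
  rcases hu with ⟨rfl, rfl, h⟩ | ⟨rfl, h⟩ | ⟨rfl, h⟩ | ⟨rfl, h⟩ | ⟨rfl, h, rfl⟩ <;> dsimp only at *
  · exact ⟨(0, 0, (i + 2) % 3), by simp [R, Q, In, h]; omega⟩
  · exact ⟨(0, 0, 0), by simp [R, Q, In, h]⟩
  · exact ⟨(0, 0, 0), by simp [R, Q, In, h]⟩
  · have e : nx φ.length (3, a, i) ≠ sc φ (3, a, i) := fun e => by
      have := (in_sc (φ := φ) (a := a) (j := i)).2.1
      rw [← e, nx] at this; split_ifs at this <;> simp at this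
    by_cases c : a % 2 = (w (a / 2)).toNat
    · exact ⟨_, ⟨hu', in_nx hu', by simp⟩, by simp [Q, c, e]⟩
    · exact ⟨sc φ (3, a, i), ⟨hu', in_sc.1, by simp⟩, by simp [Q, c, e.symm]⟩
  · have := (w a).toNat_le
    have e : (2 * a + (1 - (w a).toNat)) / 2 = a := by omega
    exact ⟨(1, 2 * a + (1 - (w a).toNat), 0), by simp [R, Q, In, h, e]; omega⟩

theorem key (φ : List (T3 ℕ)) (hφ : ∀ C ∈ φ, C.dist ∧ ∀ x ∈ C.vars, x < 3 * φ.length) :
    SatR nae φ ↔ Good (red φ).arc := by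
  have h := good_iff (R := R φ) (mkGrEquiv (vs φ.length) _) (by
    rw [Nat.card_congr (mkGrEquiv _ _), Nat.card_coe_set_eq]
    refine le_trans (Set.ncard_eq_three.2 ⟨(0, 0, 0), (0, 0, 1), (0, 0, 2), by simp, by simp, by simp, rfl⟩).ge
      (Set.ncard_le_ncard ?_ (List.finite_toSet _))
    simp [Set.insert_subset_iff, mem_vs, In]) (arc φ) fun x y h => ⟨mem_vs.2 h.1, mem_vs.2 h.2.1⟩
  simp only [Set.mem_ofPred_eq, mem_vs] at h
  constructor
  · rintro ⟨w, hw⟩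
    have := strong φ w fun j hj b hb => by
      have h1 := hw _ (List.getElem_mem hj)
      have h2 := (hφ _ (List.getElem_mem hj)).2
      suffices ∃ x ∈ φ[j].vars, (w x).toNat = b by
        obtain ⟨x, hx, e⟩ := this
        exact ⟨x, by rwa [vr, List.getD_eq_getElem _ _ hj], (h2 x hx).le, e⟩
      simp only [T3.vars, List.mem_cons, List.not_mem_nil, or_false, exists_eq_or_imp, exists_eq_left]
      revert h1
      cases w φ[j].1 <;> cases w φ[j].2.1 <;> cases w φ[j].2.2 <;> simp [nae] <;> omega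
    exact h.2 (Q φ w) (fun u hu v hv => (this u hu).1.trans (this v hv).2) fun u hu v hv =>
      (conn φ w _ u hu).trans (ReflTransGen.mono (fun _ _ => Or.symm) _ _ (conn φ w _ v hv).swap)
  · intro H
    obtain ⟨A, B, h1, h2, h3, h4, h5⟩ := h.1 H
    exact sound φ A B h1 h2 h3 h4 (h5 _ (by simp [In]))

set_option synthInstance.maxSize 2000 in
theorem result : NPHard fun a : {a : Gr // ∀ v, ¬ a.arc v v} => Good a.1.arc := by
  have h2 : PT fun φ : List (T3 ℕ) => vs φ.length := by unfold vs In; fun_prop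
  have h3 : PT fun p : List (T3 ℕ) × W => sc p.1 p.2 := by unfold sc vr T3.vars; fun_prop
  have h4 : PT fun p : ℕ × W => nx p.1 p.2 := by unfold nx; fun_prop
  have h : PT red := by unfold red R In; fun_prop
  exact NPHard.of_nae (fun φ => ⟨_, valid φ⟩) (PT.subtype h valid) key

end Pool.Agent.Results.MP_c99d13_lc.Hard
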